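import Pool.Agent.X178.SD.Main

/-!
# The degrees of the coefficients of rank two cluster scattering diagrams

Let `U n₁ n₂` (`n₁, n₂ ≥ 1`) be polynomials in `b`, `c` of degree `n₁ - 1` in `c` and of degree
`n₂ - 1` in `b` whose values at positive integers `b`, `c` are nonnegative. These are the facts
which are quoted in the problem for the exponents `U_n(c, b)` of the wall functions of the cluster
scattering diagrams of rank two. Then for all `n₁, n₂ ≥ 1` and all `1 ≤ k ≤ gcd(n₁, n₂)` the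
coefficient of `G ^ k` in the polynomial

  `T_n = ∑ ∏_j binom(G U_{j n₀}, s_j)`   (sum over all `s` with `s₁ + 2 s₂ + … + l s_l = l`)

has degree exactly `n₂ - k` in `b` and exactly `n₁ - k` in `c`.

Proof. Consider the total degree in `G` and `b`. The polynomial `G U_{j n₀}` has total degree
`j n₂ / l`, so `binom(G U_{j n₀}, s)` has the top homogeneous part `(G u_j b ^ (j n₂ / l - 1)) ^ s / s!`,
where `u_j` is the coefficient of the highest power of `b` in `U_{j n₀}`. So all products in `T_n`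
have total degree `n₂`, and the coefficient of `G ^ k b ^ (n₂ - k)` in `T_n` is the sum of
`∏ u_j ^ s_j / s_j!` over all `s` with `∑ s_j = k`. Here `u_j` is a nonzero polynomial in `c` which
is nonnegative at positive integers since `U_{j n₀}` is; so it is positive at some integer (the same
for all `j ≤ l`), and nothing can cancel.
-/

set_option autoImplicit false

namespace Pool.Agent.Results.MP_af966c_co.ExactDegrees

open Polynomial Finset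

/-- The binomial coefficient `x (x - 1) ⋯ (x - s + 1) / s!`. -/
noncomputable def binomial {B : Type} [CommRing B] [Algebra ℚ B] (x : B) (s : ℕ) : B :=
  ((s.factorial : ℚ)⁻¹) • ∏ i ∈ range s, (x - (i : B))

/-- The tuples `s₁, …, s_l ≥ 0` with `s₁ + 2 s₂ + … + l s_l = l`; the entry number `j : Fin l` of
`s` is `s_{j+1}`. (Such numbers are at most `l`.) -/
def tuples (l : ℕ) : Finset (Fin l → ℕ) :=
  (Fintype.piFinset fun _ => range (l + 1)).filter fun s => ∑ j, (j.1 + 1) * s j = l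

/-- The polynomial `T_n` in `G` for `n = (n₁, n₂)`, with coefficients in `ℚ[c][b]`: the sum over the
tuples `s` of the products of the binomial coefficients `binom(G U_{j n₀}, s_j)`, where
`l = gcd(n₁, n₂)` and `n = l n₀`. -/
noncomputable def T (U : ℕ → ℕ → ℚ[X][X]) (n₁ n₂ : ℕ) : ℚ[X][X][X] :=
  ∑ s ∈ tuples (Nat.gcd n₁ n₂), ∏ j : Fin (Nat.gcd n₁ n₂),
    binomial (X * C (U ((j.1 + 1) * (n₁ / Nat.gcd n₁ n₂)) ((j.1 + 1) * (n₂ / Nat.gcd n₁ n₂))))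
      (s j)

/-- The coefficient `τ(n; k)` of `G ^ k` in `T_n`. -/
noncomputable def tau (U : ℕ → ℕ → ℚ[X][X]) (n₁ n₂ k : ℕ) : ℚ[X][X] := (T U n₁ n₂).coeff k

/-- The degree in `b` of a polynomial in `ℚ[c][b]`. -/
noncomputable def degB (p : ℚ[X][X]) : WithBot ℕ := p.degree

/-- The degree in `c` of a polynomial in `ℚ[c][b]`: exchange `b` and `c`. -/
noncomputable def degC (p : ℚ[X][X]) : WithBot ℕ := (Bivariate.swap p).degree

/-- The value at the numbers `b`, `c` of a polynomial in `ℚ[c][b]`. -/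
noncomputable def value (b c : ℕ) (p : ℚ[X][X]) : ℚ := (p.eval (C (b : ℚ))).eval (c : ℚ)

open Pool.Agent.X178.SD in
theorem main (U : ℕ → ℕ → ℚ[X][X])
    (hb : ∀ n₁ n₂, 1 ≤ n₁ → 1 ≤ n₂ → (U n₁ n₂).degree = ((n₂ - 1 : ℕ) : WithBot ℕ))
    (hpos : ∀ n₁ n₂, 1 ≤ n₁ → 1 ≤ n₂ → ∀ b c : ℕ, 1 ≤ b → 1 ≤ c → 0 ≤ value b c (U n₁ n₂))
    (n₁ n₂ k : ℕ) (h1 : 1 ≤ n₁) (h2 : 1 ≤ n₂) (hk : 1 ≤ k) (hkl : k ≤ Nat.gcd n₁ n₂) :
    (tau U n₁ n₂ k).degree = ((n₂ - k : ℕ) : WithBot ℕ) := by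
  have hl : 0 < Nat.gcd n₁ n₂ := by omega
  have hd1 : 0 < n₁ / Nat.gcd n₁ n₂ :=
    Nat.div_pos (Nat.le_of_dvd h1 (Nat.gcd_dvd_left _ _)) hl
  have hd2 : 0 < n₂ / Nat.gcd n₁ n₂ :=
    Nat.div_pos (Nat.le_of_dvd h2 (Nat.gcd_dvd_right _ _)) hl
  have h := degree_T (Nat.gcd n₁ n₂) (n₂ / Nat.gcd n₁ n₂) hd2
    (fun j => U (j * (n₁ / Nat.gcd n₁ n₂)) (j * (n₂ / Nat.gcd n₁ n₂)))
    (fun j hj => hb _ _ (Nat.mul_pos hj hd1) (Nat.mul_pos hj hd2))
    (fun j hj b c hb hc => hpos _ _ (Nat.mul_pos hj hd1) (Nat.mul_pos hj hd2) b c hb hc) k hk hkl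
  rw [Nat.mul_div_cancel' (Nat.gcd_dvd_right n₁ n₂)] at h
  exact h

theorem map_T (U : ℕ → ℕ → ℚ[X][X]) (n₁ n₂ k : ℕ) :
    Bivariate.swap (tau U n₁ n₂ k) = tau (fun m₂ m₁ => Bivariate.swap (U m₁ m₂)) n₂ n₁ k := by
  have hf : ∀ (x : ℚ[X][X][X]) (s : ℕ),
      (binomial x s).map (Bivariate.swap (R := ℚ)).toRingEquiv.toRingHom =
        binomial (x.map (Bivariate.swap (R := ℚ)).toRingEquiv.toRingHom) s := by
    intro x s
    exact Pool.Agent.X178.SD.map_binom (B := ℚ[X][X][X]) (B' := ℚ[X][X][X])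
      (mapRingHom (Bivariate.swap (R := ℚ)).toRingEquiv.toRingHom) x s
  have e : (T U n₁ n₂).map (Bivariate.swap (R := ℚ)).toRingEquiv.toRingHom =
      T (fun m₂ m₁ => Bivariate.swap (U m₁ m₂)) n₂ n₁ := by
    unfold T
    rw [Nat.gcd_comm n₂ n₁, ← coe_mapRingHom, map_sum]
    apply sum_congr rfl
    intro s _
    rw [map_prod]
    apply prod_congr rfl
    intro j _
    rw [coe_mapRingHom, hf, Polynomial.map_mul, map_X, map_C]
    rfl
  unfold tau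
  rw [← e, coeff_map]
  rfl

/-- **The exact degrees.** -/
theorem result (U : ℕ → ℕ → ℚ[X][X])
    (hb : ∀ n₁ n₂, 1 ≤ n₁ → 1 ≤ n₂ → degB (U n₁ n₂) = ((n₂ - 1 : ℕ) : WithBot ℕ))
    (hc : ∀ n₁ n₂, 1 ≤ n₁ → 1 ≤ n₂ → degC (U n₁ n₂) = ((n₁ - 1 : ℕ) : WithBot ℕ))
    (hpos : ∀ n₁ n₂, 1 ≤ n₁ → 1 ≤ n₂ → ∀ b c : ℕ, 1 ≤ b → 1 ≤ c → 0 ≤ value b c (U n₁ n₂)) :
    ∀ n₁ n₂, 1 ≤ n₁ → 1 ≤ n₂ → ∀ k, 1 ≤ k → k ≤ Nat.gcd n₁ n₂ →
      degB (tau U n₁ n₂ k) = ((n₂ - k : ℕ) : WithBot ℕ) ∧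
      degC (tau U n₁ n₂ k) = ((n₁ - k : ℕ) : WithBot ℕ) := by
  intro n₁ n₂ h1 h2 k hk hkl
  refine ⟨main U hb hpos n₁ n₂ k h1 h2 hk hkl, ?_⟩
  unfold degC
  rw [map_T]
  refine main _ (fun m₂ m₁ h2 h1 => hc m₁ m₂ h1 h2) (fun m₂ m₁ h2 h1 b c hb hc => ?_) n₂ n₁ k h2 h1 hk
    (by rwa [Nat.gcd_comm])
  have h3 := hpos m₁ m₂ h1 h2 c b hc hb
  have h4 : value b c (Bivariate.swap (U m₁ m₂)) = value c b (U m₁ m₂) := by
    have := Bivariate.aevalAeval_swap (A := ℚ) (c : ℚ) (b : ℚ) (U m₁ m₂)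
    unfold value
    simpa [aevalAeval, evalEval, aeval_def, eval₂_eq_eval_map] using this
  rw [h4]
  exact h3

end Pool.Agent.Results.MP_af966c_co.ExactDegrees
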